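import Pool.Agent.Work.MP_db9399_ot.Interface
import Pool.Agent.Work.MP_db9399_ot.Base
import Pool.Agent.Work.MP_db9399_lh_helper21.P0ALL

/-! THEOREM OUT, block P0ALL: the rounds of the colours `e x` (helper21, a port of the block of
THEOREM LCH; the host is called `G` in the auxiliary lemmas, its degree `d`). -/

set_option autoImplicit false

namespace Pool.Agent.Work.MP_db9399_ot.helper21

open Finset Classical
open Pool.Agent.Work.MP_db9399_all (nb)
open Pool.Agent.Work.MP_db9399_dn (IsMat)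
open Pool.Agent.Work.MP_db9399_bg (den cl LabP Good PN IsPat en enP Sep Near REnv r0 Deep Spr Ok
  Lbl c3f c3 HPre Ix mem_nb mem_cl mem_PN den_nonneg natCast_inj natCast_eq_neg c3f_inj mem_c3
  two_mul_inj)
open Pool.Agent.Work.MP_db9399_lh (Cr Lh ce su kp io sp pt cr cy rf rx rr tj ty inM rP rR np nr eP
  pr qr qe fq f0 ft Vq EndSX Vd UW VCol Rr Rf Jk Ub P0R PeR bb den_bb mem_bb mem_cy den_rr
  card_core card_zmod)
open Pool.Agent.Work.MP_db9399_lh.helper21 (In2 F0 F1 St usd hdet In2_c3 In2_symm card_ix deg_bx_le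
  le_deg_bx den_opt den_junk den_sub mem_rP mem_PNr mem_PNr' card_le_five Spr_empty)

universe u

section defs
variable {V : Type u} [Fintype V] {l m r K K1 S : ℕ} {w n : ℕ}

theorem nb_le {G G0 : SimpleGraph V} (h : G ≤ G0) (v : V) : nb G v ⊆ nb G0 v := by
  intro z hz
  rw [mem_nb] at hz ⊢
  exact h hz

/-- number of used edges from `v` to another cell -/
theorem card_usd {k W1 : ℕ} {g : ℝ} {G : SimpleGraph V} {d ν : ℕ} {UH : Finset V}
    {c0 tu : V → Fin k} {lab : V → Lh l m r K K1 S} {e : Ix m w → Fin k}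
    {τ : Fin w → Option (ZMod 3)} {ρ : Fin w → ZMod 3} {e1 : Fin W1 → Fin k} {tp : V → ZMod 3}
    {c : V → Fin k} {wv : V → Fin k → V}
    {Nd : Ix m w → SimpleGraph V} {X : Finset (Ix m w)} {M : Ix m w → SimpleGraph V}
    {O : Ix m w → Finset V} (hS : St g G d UH c0 tu lab e τ ρ e1 tp c wv Nd X M O)
    {Gc : Fin n → SimpleGraph V} {ι : Fin w → Option (Fin n)} (hN : NDec ν G Gc UH lab τ ι Nd)
    {σ c1 : ℝ} (hL : LabP G d σ c1 lab) (hd : ∀ v, (nb G v).card ≤ d) (v : V)
    (a : ZMod (2 * m + 1)) :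
    ((usd lab M a v).card : ℝ) ≤ 4 * w + d / ((2 * m + 1) * (K + 1)) + σ * d := by
  set I1 : Finset (Ix m w) := univ.filter (fun x => x.1 = ce (lab v) ∧ In2 x.1 x.2.1 a) with hI1
  set I2 : Finset (Ix m w) := univ.filter (fun x => x.1 = a ∧ In2 x.1 x.2.1 (ce (lab v))) with hI2
  set I3 : Finset (Ix m w) := univ.filter (fun x => ce (lab v) + a = 2 * x.1 ∧
    In2 x.1 x.2.1 a) with hI3
  set I4 : Finset (Ix m w) := univ.filter (fun x => x.1 = kp (lab v) ∧
    In2 x.1 x.2.1 a) with hI4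
  have c1' : I1.card ≤ w := card_ix I1 (by
    intro x hx y hy
    rw [hI1, mem_filter] at hx hy
    have h1 : x.1 = y.1 := hx.2.1.trans hy.2.1.symm
    refine ⟨h1, hdet hx.2.2 ?_⟩
    rw [h1]
    exact hy.2.2)
  have c2' : I2.card ≤ w := card_ix I2 (by
    intro x hx y hy
    rw [hI2, mem_filter] at hx hy
    have h1 : x.1 = y.1 := hx.2.1.trans hy.2.1.symm
    refine ⟨h1, hdet hx.2.2 ?_⟩
    rw [h1]
    exact hy.2.2)
  have c3' : I3.card ≤ w := card_ix I3 (by
    intro x hx y hy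
    rw [hI3, mem_filter] at hx hy
    have h1 : x.1 = y.1 := two_mul_inj (hx.2.1.symm.trans hy.2.1)
    refine ⟨h1, hdet hx.2.2 ?_⟩
    rw [h1]
    exact hy.2.2)
  have c4' : I4.card ≤ w := card_ix I4 (by
    intro x hx y hy
    rw [hI4, mem_filter] at hx hy
    have h1 : x.1 = y.1 := hx.2.1.trans hy.2.1.symm
    refine ⟨h1, hdet hx.2.2 ?_⟩
    rw [h1]
    exact hy.2.2)
  have hsub : usd lab M a v ⊆ ((I1 ∪ I2 ∪ I3 ∪ I4).biUnion (fun x => nb (M x) v)) ∪
      (nb G v ∩ cl lab (bb {a} univ univ univ {0} univ)) := by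
    intro v' hv'
    rw [usd, mem_filter] at hv'
    obtain ⟨-, ha, x, hx⟩ := hv'
    obtain ⟨⟨hR, hF⟩, -⟩ := hS.le x v v' hx
    have hne : ce (lab v) ≠ a := by
      rw [← ha]
      exact hR.2.2.2.1
    rw [mem_union, mem_biUnion]
    rcases hF with ⟨h1, h2⟩ | ⟨h1, h2⟩ | ⟨h1, h2⟩
    · left
      refine ⟨x, ?_, mem_nb.2 hx⟩
      rw [ha, mem_c3] at h2
      rw [mem_c3] at h1
      rw [mem_union, mem_union, mem_union, hI1, hI2, hI3, hI4, mem_filter, mem_filter, mem_filter,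
        mem_filter]
      rcases h1 with h1 | h1 | h1
      · rcases h2 with h2 | h2
        · exact absurd (h1.trans h2.symm) hne
        · exact Or.inl (Or.inl (Or.inl ⟨mem_univ _, h1.symm, h2⟩))
      · rcases h2 with h2 | h2 | h2
        · exact Or.inl (Or.inl (Or.inr ⟨mem_univ _, h2.symm, Or.inl h1⟩))
        · exact absurd (h1.trans h2.symm) hne
        · refine Or.inl (Or.inr ⟨mem_univ _, ?_, Or.inr h2⟩)
          rw [h1, h2]
          ring
      · rcases h2 with h2 | h2 | h2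
        · exact Or.inl (Or.inl (Or.inr ⟨mem_univ _, h2.symm, Or.inr h1⟩))
        · refine Or.inl (Or.inr ⟨mem_univ _, ?_, Or.inl h2⟩)
          rw [h1, h2]
          ring
        · exact absurd (h1.trans h2.symm) hne
    · left
      refine ⟨x, ?_, mem_nb.2 hx⟩
      rw [Jk, mem_filter] at h1
      obtain ⟨-, h3, h8, h4, h5⟩ := h1
      rw [ha] at h2
      have h6 : kp (lab v) = x.1 ∧ io (lab v) = 0 := by
        by_contra h7
        exact h5 (hN.cov x v h3 h4 h8 h7)
      rw [mem_union, hI4, mem_filter]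
      exact Or.inr ⟨mem_univ _, h6.1.symm, h2⟩
    · right
      rw [Jk, mem_filter] at h1
      obtain ⟨-, h3, h8, h4, h5⟩ := h1
      have h6 : kp (lab v') = x.1 ∧ io (lab v') = 0 := by
        by_contra h7
        exact h5 (hN.cov x v' h3 h4 h8 h7)
      rw [mem_inter, mem_nb, mem_cl, mem_bb]
      refine ⟨hR.1, ?_, mem_univ _, mem_univ _, mem_univ _, ?_, mem_univ _⟩
      · rw [mem_singleton]
        exact ha
      · rw [mem_singleton]
        exact h6.2
  have h1 := card_le_card hsub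
  have h2 := card_union_le ((I1 ∪ I2 ∪ I3 ∪ I4).biUnion (fun x => nb (M x) v))
    (nb G v ∩ cl lab (bb {a} univ univ univ {0} univ))
  have h3 : ((I1 ∪ I2 ∪ I3 ∪ I4).biUnion (fun x => nb (M x) v)).card ≤
      (I1 ∪ I2 ∪ I3 ∪ I4).card * 1 := card_biUnion_le_card_mul _ _ _ (fun x _ => hS.mat x v)
  have h4 := card_union_le (I1 ∪ I2 ∪ I3) I4
  have h5 := card_union_le (I1 ∪ I2) I3
  have h6 := card_union_le I1 I2
  have h7 : (usd lab M a v).card ≤ 4 * w +
      (nb G v ∩ cl lab (bb {a} univ univ univ {0} univ)).card := by omega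
  have h8 := deg_bx_le hL hd v (bb {a} univ univ univ {0} univ)
  rw [den_opt] at h8
  have h10 : ((usd lab M a v).card : ℝ) ≤ 4 * w +
      ((nb G v ∩ cl lab (bb {a} univ univ univ {0} univ)).card : ℝ) := by exact_mod_cast h7
  have h11 : 1 / ((2 * (m : ℝ) + 1) * (K + 1)) * d = d / ((2 * m + 1) * (K + 1)) := by ring
  rw [h11] at h8
  linarith

/-- the situation of the round `x` -/
theorem renv {k W1 : ℕ} {g : ℝ} {G : SimpleGraph V} {d ν : ℕ} {UH : Finset V}
    {c0 tu : V → Fin k} {lab : V → Lh l m r K K1 S} {e : Ix m w → Fin k}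
    {τ : Fin w → Option (ZMod 3)} {ρ : Fin w → ZMod 3} {e1 : Fin W1 → Fin k} {tp : V → ZMod 3}
    {c : V → Fin k} {wv : V → Fin k → V}
    {Nd : Ix m w → SimpleGraph V} {X : Finset (Ix m w)} {M : Ix m w → SimpleGraph V}
    {O : Ix m w → Finset V} (hS : St g G d UH c0 tu lab e τ ρ e1 tp c wv Nd X M O)
    {Gc : Fin n → SimpleGraph V} {ι : Fin w → Option (Fin n)} (hN : NDec ν G Gc UH lab τ ι Nd)
    {σ c1 ε0 : ℝ} (hL : LabP G d σ c1 lab) (hd : ∀ v, (nb G v).card ≤ d)
    (hlow : ∀ v, (1 - ε0) * d ≤ ((nb G v).card : ℝ)) {EH : SimpleGraph V}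
    {G0 : SimpleGraph V} (hG : G ≤ G0) (hH : HPre G0 UH c0 EH tu) (he : Function.Injective e) {pal : Fin m × Fin w → Fin (r + 1)}
    (hV : VCol G0 UH c0 lab e τ pal c) {sy : Fin W1 → Fin (K1 + 1) × Fin (K1 + 1)} {δ2 : ℝ}
    (hU : UPar G0 G Gc d δ2 UH c0 tu lab e τ ι e1 sy tp c wv) (hl : 2 ≤ l) {δ x0 : ℝ}
    (x : Ix m w)
    (hq : 4000 * x0 ≤ δ * qr l m S (τ x.2.2) d) (hσ : σ * d ≤ x0) (h2 : 2 ≤ x0)
    (hδ2 : δ2 * d ≤ x0)
    (hw : (w : ℝ) ≤ 5 / 2 * x0) (hK : (d : ℝ) / ((2 * m + 1) * (K + 1)) ≤ x0)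
    (hr : (d : ℝ) / ((2 * m + 1) * (r + 1)) ≤ x0)
    (hε : ε0 * qr l m S (τ x.2.2) d ≤ 1 / 10 * (δ * qr l m S (τ x.2.2) d)) :
    REnv G (F1 G UH lab τ Nd M x) (qr l m S (τ x.2.2) d) δ lab
      (rP l r K K1 S x.1 x.2.1 (τ x.2.2)) (rR l S (τ x.2.2))
      (Ub UH c0 tu lab e τ e1 tp c wv Nd x) (Jk UH lab τ Nd x) := by
  have hJc : ∀ v ∈ Jk UH lab τ Nd x, ce (lab v) ∉ c3 x.1 x.2.1 := by
    intro v hv
    rw [Jk, mem_filter] at hv
    exact hv.2.2.2.1
  have hJU : ∀ v ∈ Jk UH lab τ Nd x, v ∉ UH := by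
    intro v hv
    rw [Jk, mem_filter] at hv
    exact hv.2.1
  have hJt : ∀ v ∈ Jk UH lab τ Nd x, τ x.2.2 ≠ some (pt (lab v)) := by
    intro v hv
    rw [Jk, mem_filter] at hv
    exact hv.2.2.1
  have hUU : ∀ v ∈ Ub UH c0 tu lab e τ e1 tp c wv Nd x, v ∉ UH := by
    intro v hv
    rw [Ub, mem_filter] at hv
    rcases hv.2 with h | h
    · exact h.1
    · exact hJU v h
  have hUt : ∀ v ∈ Ub UH c0 tu lab e τ e1 tp c wv Nd x, τ x.2.2 ≠ some (pt (lab v)) := by
    intro v hv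
    rw [Ub, mem_filter] at hv
    rcases hv.2 with h | h
    · exact h.2.1
    · exact hJt v h
  have hUc : ∀ v ∈ Ub UH c0 tu lab e τ e1 tp c wv Nd x, v ∉ Jk UH lab τ Nd x →
      ce (lab v) ∈ c3 x.1 x.2.1 := by
    intro v hv hJ
    rw [Ub, mem_filter] at hv
    rcases hv.2 with h | h
    · exact h.2.2.1
    · exact absurd h hJ
  have hJsub : ∀ v, nb G v ∩ Jk UH lab τ Nd x ⊆
      nb G v ∩ cl lab (bb univ univ univ {x.1} {0} univ) := by
    intro v z hz
    rw [mem_inter] at hz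
    obtain ⟨hz1, hz2⟩ := hz
    rw [Jk, mem_filter] at hz2
    obtain ⟨-, h3, h8, h4, h5⟩ := hz2
    have h6 : kp (lab z) = x.1 ∧ io (lab z) = 0 := by
      by_contra h7
      exact h5 (hN.cov x z h3 h4 h8 h7)
    rw [mem_inter, mem_cl, mem_bb, mem_singleton, mem_singleton]
    exact ⟨hz1, mem_univ _, mem_univ _, mem_univ _, h6.1, h6.2, mem_univ _⟩
  have husd : ∀ v a, ((usd lab M a v).card : ℝ) ≤ 12 * x0 := by
    intro v a
    have h3 := card_usd hS hN hL hd v a
    linarith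
  have hcol : ∀ z, z ∉ UH → c z = e x → z ∈ cl lab (bb {x.1} univ {pal x.2} univ univ univ :
      Finset (Lh l m r K K1 S)) := by
    intro z hz hc
    obtain ⟨y, hy1, hy2, -⟩ := hV.cP z hz
    have h3 : (ce (lab z), y) = x := he (hy1.symm.trans hc)
    rw [mem_cl, mem_bb, mem_singleton, mem_singleton]
    refine ⟨?_, mem_univ _, ?_, mem_univ _, mem_univ _, mem_univ _⟩
    · rw [← h3]
    · rw [← h3]
      exact hy2.symm
  have hcolc : ∀ v, ((nb G v ∩ cl lab (bb {x.1} univ {pal x.2} univ univ univ :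
      Finset (Lh l m r K K1 S))).card : ℝ) ≤ 2 * x0 := by
    intro v
    have h3 := deg_bx_le hL hd v (bb {x.1} univ {pal x.2} univ univ univ)
    rw [den_sub] at h3
    have h4 : 1 / ((2 * (m : ℝ) + 1) * (r + 1)) * d = d / ((2 * m + 1) * (r + 1)) := by ring
    rw [h4] at h3
    linarith
  have hUHc : ∀ v, ((nb G v ∩ UH).card : ℝ) ≤ x0 := by
    intro v
    have h3 : ((nb G v ∩ UH).card : ℝ) ≤ 2 := by
      exact_mod_cast (card_le_card (Finset.inter_subset_inter_right (nb_le hG v))).trans (hH.two v)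
    linarith
  have hUWc : ∀ v, ((nb G v ∩ UW UH c0 tu e τ e1 tp wv (e x)).card : ℝ) ≤ x0 := by
    intro v
    have h3 := hU.spr v (e x)
    have h4 : ((nb G v ∩ UW UH c0 tu e τ e1 tp wv (e x)).card : ℝ) ≤
        ((nb G0 v ∩ UW UH c0 tu e τ e1 tp wv (e x)).card : ℝ) := by
      exact_mod_cast card_le_card (Finset.inter_subset_inter_right (nb_le hG v))
    linarith
  -- vertices of the three cells outside `U`
  have hnotU : ∀ z, ce (lab z) ∈ c3 x.1 x.2.1 → τ x.2.2 ≠ some (pt (lab z)) →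
      z ∉ Ub UH c0 tu lab e τ e1 tp c wv Nd x → z ∈ UH ∨
      z ∈ cl lab (bb {x.1} univ {pal x.2} univ univ univ : Finset (Lh l m r K K1 S)) ∨
      z ∈ UW UH c0 tu e τ e1 tp wv (e x) := by
    intro z hz hzt hzU
    by_cases h3 : z ∈ UH
    · exact Or.inl h3
    by_cases h4 : z ∈ UW UH c0 tu e τ e1 tp wv (e x)
    · exact Or.inr (Or.inr h4)
    right
    left
    apply hcol z h3
    by_contra h5
    apply hzU
    rw [Ub, mem_filter]
    exact ⟨mem_univ _, Or.inl ⟨h3, hzt, hz, h5, h4⟩⟩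
  have hx0 : (0 : ℝ) ≤ x0 := by linarith
  refine ⟨?_, ?_, ?_, ?_, ?_, ?_, ?_, ?_, ?_, ?_⟩
  · intro v v' h3
    exact h3.1.1.1
  · intro v hv
    rw [Ub, mem_filter]
    exact ⟨mem_univ _, Or.inr hv⟩
  · intro v hv hJ
    have h3 := hUc v hv hJ
    obtain ⟨i, -, hi⟩ := mem_image.1 h3
    exact ⟨(i, ⟨cr (lab v), hUt v hv⟩), mem_rP.2 ⟨hi.symm, rfl⟩⟩
  · intro v hv b hb
    apply hJc v hv
    rw [(mem_rP.1 hb).1]
    exact mem_image_of_mem _ (mem_univ _)
  · intro b v hv hb z hz hzJ hadj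
    rw [mem_rP] at hb
    apply mem_PNr' (hUc z hz hzJ)
    · rw [← hb.1]
      exact hadj.1.1.2.2.2.1.symm
    · rw [← hb.2]
      exact hadj.1.1.2.2.2.2
    · exact hUt z hz
  · intro v hv z hz hadj
    rcases hadj.1.2 with ⟨h3, -⟩ | ⟨-, h3⟩ | ⟨-, h3⟩
    · exact hJc v hv h3
    · exact hJc z hz (In2_c3 h3)
    · exact hJc v hv (In2_c3 h3)
  · -- miss
    intro b v hv hb
    have hb' := mem_rP.1 hb
    have hvc : ce (lab v) ∈ c3 x.1 x.2.1 := by
      rw [hb'.1]
      exact mem_image_of_mem _ (mem_univ _)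
    have hsub : (nb G v ∩ cl lab (PN (rP l r K K1 S x.1 x.2.1 (τ x.2.2)) (rR l S (τ x.2.2)) b)) \
        (nb (F1 G UH lab τ Nd M x) v ∩ Ub UH c0 tu lab e τ e1 tp c wv Nd x) ⊆
        (nb G v ∩ UH) ∪ (nb G v ∩ cl lab (bb {x.1} univ {pal x.2} univ univ univ)) ∪
          (nb G v ∩ UW UH c0 tu e τ e1 tp wv (e x)) ∪
          ((univ.erase b.1).biUnion (fun i => usd lab M (c3f x.1 x.2.1 i) v)) ∪ ∅ := by
      intro z hz
      rw [mem_sdiff, mem_inter, mem_inter, mem_nb, mem_cl, mem_nb] at hz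
      obtain ⟨⟨h3, h4⟩, h5⟩ := hz
      obtain ⟨h6, h7, h8, h8t⟩ := mem_PNr h4
      rw [mem_union, mem_union, mem_union, mem_union, mem_inter, mem_inter, mem_inter, mem_nb,
        mem_biUnion]
      by_cases hzU : z ∈ Ub UH c0 tu lab e τ e1 tp c wv Nd x
      · have hR : (Rr G UH lab).Adj v z := by
          refine ⟨h3, hUU v hv, hUU z hzU, ?_, ?_⟩
          · rw [hb'.1]
            exact h7.symm
          · rw [hb'.2]
            exact h8
        have h9 : ∃ x', (M x').Adj v z := by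
          by_contra h10
          push Not at h10
          exact h5 ⟨⟨⟨hR, Or.inl ⟨hvc, h6⟩⟩, h10⟩, hzU⟩
        obtain ⟨i, -, hi⟩ := mem_image.1 h6
        left
        right
        refine ⟨i, ?_, ?_⟩
        · rw [mem_erase]
          refine ⟨?_, mem_univ _⟩
          rintro rfl
          exact h7 hi.symm
        · rw [usd, mem_filter]
          exact ⟨mem_univ _, hi.symm, h9⟩
      · rcases hnotU z h6 h8t hzU with h9 | h9 | h9
        · exact Or.inl (Or.inl (Or.inl (Or.inl ⟨h3, h9⟩)))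
        · exact Or.inl (Or.inl (Or.inl (Or.inr ⟨h3, h9⟩)))
        · exact Or.inl (Or.inl (Or.inr ⟨h3, h9⟩))
    have h3 := card_le_five hsub
    have h4 : (((univ.erase b.1).biUnion (fun i => usd lab M (c3f x.1 x.2.1 i) v)).card : ℝ) ≤
        24 * x0 := by
      have h5 : ((univ.erase b.1).biUnion (fun i => usd lab M (c3f x.1 x.2.1 i) v)).card ≤
          ∑ i ∈ univ.erase b.1, (usd lab M (c3f x.1 x.2.1 i) v).card := card_biUnion_le
      have h6 : (((univ.erase b.1).biUnion (fun i => usd lab M (c3f x.1 x.2.1 i) v)).card : ℝ) ≤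
          ∑ i ∈ univ.erase b.1, ((usd lab M (c3f x.1 x.2.1 i) v).card : ℝ) := by
        exact_mod_cast h5
      have h7 : ∑ i ∈ univ.erase b.1, ((usd lab M (c3f x.1 x.2.1 i) v).card : ℝ) ≤
          ∑ i ∈ (univ : Finset (Fin 3)).erase b.1, 12 * x0 :=
        Finset.sum_le_sum (fun i _ => husd v _)
      rw [Finset.sum_const, Finset.card_erase_of_mem (mem_univ _), card_univ,
        Fintype.card_fin, nsmul_eq_mul] at h7
      push_cast at h7
      linarith
    have h5 := hUHc v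
    have h6 := hcolc v
    have h7 := hUWc v
    rw [card_empty, Nat.cast_zero] at h3
    linarith
  · -- out
    intro b v hb
    have hsub : (nb G v ∩ cl lab (PN (rP l r K K1 S x.1 x.2.1 (τ x.2.2)) (rR l S (τ x.2.2)) b)) \
        Ub UH c0 tu lab e τ e1 tp c wv Nd x ⊆
        (nb G v ∩ UH) ∪ (nb G v ∩ cl lab (bb {x.1} univ {pal x.2} univ univ univ)) ∪
          (nb G v ∩ UW UH c0 tu e τ e1 tp wv (e x)) ∪ ∅ ∪ ∅ := by
      intro z hz
      rw [mem_sdiff, mem_inter, mem_nb, mem_cl] at hz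
      obtain ⟨⟨h3, h4⟩, h5⟩ := hz
      obtain ⟨h6, h7, h8, h8t⟩ := mem_PNr h4
      rw [mem_union, mem_union, mem_union, mem_union, mem_inter, mem_inter, mem_inter, mem_nb]
      rcases hnotU z h6 h8t h5 with h9 | h9 | h9
      · exact Or.inl (Or.inl (Or.inl (Or.inl ⟨h3, h9⟩)))
      · exact Or.inl (Or.inl (Or.inl (Or.inr ⟨h3, h9⟩)))
      · exact Or.inl (Or.inl (Or.inr ⟨h3, h9⟩))
    have h3 := card_le_five hsub
    have h5 := hUHc v
    have h6 := hcolc v
    have h7 := hUWc v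
    rw [card_empty, Nat.cast_zero] at h3
    linarith
  · -- junk
    intro v
    have h3 : ((nb G v ∩ Jk UH lab τ Nd x).card : ℝ) ≤
        ((nb G v ∩ cl lab (bb univ univ univ {x.1} {0} univ)).card : ℝ) := by
      exact_mod_cast card_le_card (hJsub v)
    have h4 := deg_bx_le hL hd v (bb univ univ univ {x.1} {0} univ)
    rw [den_junk] at h4
    have h5 : 1 / ((2 * (m : ℝ) + 1) * (K + 1)) * d = d / ((2 * m + 1) * (K + 1)) := by ring
    rw [h5] at h4
    linarith
  · -- jdeg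
    intro v hv
    set a1 : ZMod (2 * m + 1) := x.1 + ((x.2.1 : ℕ) + 1 : ℕ) with ha1
    set a2 : ZMod (2 * m + 1) := x.1 - ((x.2.1 : ℕ) + 1 : ℕ) with ha2
    have ha12 : a1 ≠ a2 := by
      have h3 := c3f_inj x.1 x.2.1
      intro h4
      have h5 : c3f x.1 x.2.1 1 = c3f x.1 x.2.1 2 := h4
      have h6 := h3 h5
      exact absurd h6 (by decide)
    set B : Finset (Lh l m r K K1 S) := cy {a1, a2}
      (univ.filter (fun c' => rr (cr (lab v)) c' ∧ τ x.2.2 ≠ some c'.2.1)) with hB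
    have hden : den B * d = qr l m S (τ x.2.2) d := by
      rw [hB, den_rr hl (τ x.2.2) (cr (lab v)) (hJt v hv), Finset.card_pair ha12]
      unfold qr nr
      push_cast
      ring
    have hvJ := hJc v hv
    constructor
    · have hsub : (nb G v ∩ cl lab B) \
          (nb (F1 G UH lab τ Nd M x) v ∩ Ub UH c0 tu lab e τ e1 tp c wv Nd x) ⊆
          (nb G v ∩ UH) ∪ (nb G v ∩ cl lab (bb {x.1} univ {pal x.2} univ univ univ)) ∪
            (nb G v ∩ UW UH c0 tu e τ e1 tp wv (e x)) ∪ usd lab M a1 v ∪ usd lab M a2 v := by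
        intro z hz
        rw [mem_sdiff, mem_inter, mem_inter, mem_nb, mem_cl, mem_nb, hB, mem_cy] at hz
        obtain ⟨⟨h3, h6, h7⟩, h5⟩ := hz
        rw [mem_insert, mem_singleton] at h6
        rw [mem_filter] at h7
        obtain ⟨-, h8, h8t⟩ := h7
        have hz2 : In2 x.1 x.2.1 (ce (lab z)) := h6
        rw [mem_union, mem_union, mem_union, mem_union, mem_inter, mem_inter, mem_inter, mem_nb]
        by_cases hzU : z ∈ Ub UH c0 tu lab e τ e1 tp c wv Nd x
        · have hR : (Rr G UH lab).Adj v z := by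
            refine ⟨h3, hJU v hv, hUU z hzU, ?_, h8⟩
            intro h9
            exact hvJ (h9 ▸ In2_c3 hz2)
          have h9 : ∃ x', (M x').Adj v z := by
            by_contra h10
            push Not at h10
            exact h5 ⟨⟨⟨hR, Or.inr (Or.inl ⟨hv, hz2⟩)⟩, h10⟩, hzU⟩
          rcases h6 with h6 | h6
          · left
            right
            rw [usd, mem_filter]
            exact ⟨mem_univ _, h6, h9⟩
          · right
            rw [usd, mem_filter]
            exact ⟨mem_univ _, h6, h9⟩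
        · rcases hnotU z (In2_c3 hz2) h8t hzU with h9 | h9 | h9
          · exact Or.inl (Or.inl (Or.inl (Or.inl ⟨h3, h9⟩)))
          · exact Or.inl (Or.inl (Or.inl (Or.inr ⟨h3, h9⟩)))
          · exact Or.inl (Or.inl (Or.inr ⟨h3, h9⟩))
      have h5 := card_le_five hsub
      have h6 := hUHc v
      have h7 := hcolc v
      have h8 := hUWc v
      have h9 := husd v a1
      have h10 := husd v a2
      have h11 := le_deg_bx hL hlow v B
      have h12 : (nb G v ∩ cl lab B).card ≤ ((nb G v ∩ cl lab B) \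
          (nb (F1 G UH lab τ Nd M x) v ∩ Ub UH c0 tu lab e τ e1 tp c wv Nd x)).card +
          (nb (F1 G UH lab τ Nd M x) v ∩ Ub UH c0 tu lab e τ e1 tp c wv Nd x).card :=
        card_le_card_sdiff_add_card
          (t := nb (F1 G UH lab τ Nd M x) v ∩ Ub UH c0 tu lab e τ e1 tp c wv Nd x)
          (s := nb G v ∩ cl lab B)
      have h13 : ((nb G v ∩ cl lab B).card : ℝ) ≤ (((nb G v ∩ cl lab B) \
          (nb (F1 G UH lab τ Nd M x) v ∩ Ub UH c0 tu lab e τ e1 tp c wv Nd x)).card : ℝ) +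
          ((nb (F1 G UH lab τ Nd M x) v ∩
            Ub UH c0 tu lab e τ e1 tp c wv Nd x).card : ℝ) := by
        exact_mod_cast h12
      have h14 : den B * ((1 - ε0) * d) =
          qr l m S (τ x.2.2) d - ε0 * qr l m S (τ x.2.2) d := by
        rw [← hden]
        ring
      rw [h14] at h11
      linarith
    · have hsub : nb (F1 G UH lab τ Nd M x) v ∩ Ub UH c0 tu lab e τ e1 tp c wv Nd x ⊆
          nb G v ∩ cl lab B := by
        intro z hz
        rw [mem_inter, mem_nb] at hz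
        obtain ⟨⟨⟨hR, hF⟩, -⟩, hzU⟩ := hz
        have h5 : In2 x.1 x.2.1 (ce (lab z)) := by
          rcases hF with ⟨h3, -⟩ | ⟨-, h3⟩ | ⟨-, h3⟩
          · exact absurd h3 hvJ
          · exact h3
          · exact absurd (In2_c3 h3) hvJ
        rw [mem_inter, mem_nb, mem_cl, hB, mem_cy, mem_insert, mem_singleton, mem_filter]
        exact ⟨hR.1, h5, mem_univ _, hR.2.2.2.2, hUt z hzU⟩
      have h5 : ((nb (F1 G UH lab τ Nd M x) v ∩
          Ub UH c0 tu lab e τ e1 tp c wv Nd x).card : ℝ) ≤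
          ((nb G v ∩ cl lab B).card : ℝ) := by
        exact_mod_cast card_le_card hsub
      have h6 := deg_bx_le hL hd v B
      rw [hden] at h6
      linarith

/-- one more round -/
theorem step {k W1 : ℕ} {g : ℝ} {G : SimpleGraph V} {d : ℕ} {UH : Finset V}
    {c0 tu : V → Fin k} {lab : V → Lh l m r K K1 S} {e : Ix m w → Fin k}
    {τ : Fin w → Option (ZMod 3)} {ρ : Fin w → ZMod 3} {e1 : Fin W1 → Fin k} {tp : V → ZMod 3}
    {c : V → Fin k} {wv : V → Fin k → V}
    {Nd : Ix m w → SimpleGraph V} {δ : ℝ} {dd : ℕ} (hR1 : OneRound g δ G d dd lab)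
    (hren : ∀ (X : Finset (Ix m w)) (M : Ix m w → SimpleGraph V) (O : Ix m w → Finset V),
      St g G d UH c0 tu lab e τ ρ e1 tp c wv Nd X M O → ∀ x,
      REnv G (F1 G UH lab τ Nd M x) (qr l m S (τ x.2.2) d) δ lab
        (rP l r K K1 S x.1 x.2.1 (τ x.2.2)) (rR l S (τ x.2.2))
        (Ub UH c0 tu lab e τ e1 tp c wv Nd x) (Jk UH lab τ Nd x))
    (hτρ : ∀ s, τ s ≠ some (ρ s))
    (hmw : ∀ i, m * (univ.filter (fun s => ρ s = i)).card * (3 * (2 * m + 1)) ≤ dd)
    (X : Finset (Ix m w)) :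
    ∃ (M : Ix m w → SimpleGraph V) (O : Ix m w → Finset V),
      St g G d UH c0 tu lab e τ ρ e1 tp c wv Nd X M O := by
  induction X using Finset.induction_on with
  | empty =>
    refine ⟨fun _ => ⊥, fun _ => ∅, ?_, ?_, ?_, ?_, ?_, ?_, ?_, ?_⟩
    · intro x _
      rfl
    · intro x v v' h
      exact absurd h (by simp)
    · intro x v
      simp [nb]
    · intro x x' _ v v' h
      exact absurd h (by simp)
    · intro x hx
      exact absurd hx (notMem_empty _)
    · intro x v hv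
      exact absurd hv (notMem_empty _)
    · intro x x' _
      exact disjoint_empty_left _
    · intro x
      exact Spr_empty _ _ _ _ _
  | insert x X hxS ih =>
    obtain ⟨M, O, hS⟩ := ih
    have hren' := hren X M O hS x
    set T : Finset (Fin m × Fin w) := univ.filter (fun y => ρ y.2 = ρ x.2.2) with hT
    have hTc : T.card = m * (univ.filter (fun s => ρ s = ρ x.2.2)).card := by
      have h1 : T = (univ : Finset (Fin m)) ×ˢ (univ.filter (fun s => ρ s = ρ x.2.2)) := by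
        ext y
        simp [hT]
      rw [h1, card_product, card_univ, Fintype.card_fin]
    have hTm : ∀ y ∈ T, ρ y.2 = ρ x.2.2 := by
      intro y hy
      rw [hT, mem_filter] at hy
      exact hy.2
    set Oi : ℕ → Finset V := fun i =>
      if h : i < T.card then O (x.1, (T.equivFin.symm ⟨i, h⟩).1) else ∅
      with hOi
    have hOi2 : ∀ y : Fin m × Fin w, ∀ hy : y ∈ T, Oi (T.equivFin ⟨y, hy⟩ : ℕ) = O (x.1, y) := by
      intro y hy
      simp only [hOi]
      rw [dif_pos (T.equivFin ⟨y, hy⟩).2]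
      simp
    obtain ⟨M', O', hM1, hM2, hM3, hM4, hO1, hO2, hO3⟩ := hR1 (τ x.2.2) (ρ x.2.2)
      (F1 G UH lab τ Nd M x) x.1 x.2.1
      (Ub UH c0 tu lab e τ e1 tp c wv Nd x) (Jk UH lab τ Nd x) T.card Oi (hτρ x.2.2) hren'
      (by rw [hTc]; exact hmw _) (by
        intro i hi
        simp only [hOi]
        rw [dif_pos hi]
        have h1 := hTm _ (T.equivFin.symm ⟨i, hi⟩).2
        have h2 := hS.spr (x.1, (T.equivFin.symm ⟨i, hi⟩).1)
        rw [← h1]
        exact h2)
    have hOx : ∀ v ∈ O', v ∉ UH := by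
      intro v hv
      have h1 := hO1 hv
      rw [Ub, mem_filter] at h1
      rcases h1.2 with h | h
      · exact h.1
      · rw [Jk, mem_filter] at h
        exact h.2.1
    have hOd : ∀ x', x' ≠ x → Disjoint (O x') O' := by
      intro x' hne
      rw [Finset.disjoint_left]
      intro v hv hv'
      obtain ⟨-, h1, h1', -⟩ := hS.OU x' v hv
      obtain ⟨h2, h2', -, h3⟩ := hO2 v hv'
      have hxT : x'.2 ∈ T := by
        rw [hT, mem_filter]
        exact ⟨mem_univ _, h1'.symm.trans h2'⟩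
      have h4 := h3 (T.equivFin ⟨x'.2, hxT⟩ : ℕ) (T.equivFin ⟨x'.2, hxT⟩).2
      rw [hOi2] at h4
      apply h4
      have h5 : ((x.1, x'.2) : Ix m w) = x' := by
        rw [← h2, h1]
      rw [h5]
      exact hv
    refine ⟨Function.update M x M', Function.update O x O', ?_, ?_, ?_, ?_, ?_, ?_, ?_, ?_⟩
    · intro x' hx'
      rw [mem_insert, not_or] at hx'
      rw [Function.update_of_ne hx'.1]
      exact hS.bot x' hx'.2
    · intro x' v v' h
      by_cases hx : x' = x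
      · subst hx
        rw [Function.update_self] at h
        exact ⟨(hM1 h).1, hM3 v v' h⟩
      · rw [Function.update_of_ne hx] at h
        exact hS.le x' v v' h
    · intro x'
      by_cases hx : x' = x
      · subst hx
        rw [Function.update_self]
        exact hM2
      · rw [Function.update_of_ne hx]
        exact hS.mat x'
    · intro x1 x2 hne v v' h
      by_cases h1 : x1 = x
      · subst h1
        rw [Function.update_self] at h
        rw [Function.update_of_ne (fun h2 => hne h2.symm)]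
        exact (hM1 h).2 x2
      · rw [Function.update_of_ne h1] at h
        by_cases h2 : x2 = x
        · subst h2
          rw [Function.update_self]
          intro h3
          exact (hM1 h3).2 x1 h
        · rw [Function.update_of_ne h2]
          exact hS.dis x1 x2 hne v v' h
    · intro x' hx' v hv hvO
      by_cases hx : x' = x
      · subst hx
        rw [Function.update_self] at hvO ⊢
        exact hM4 v hv hvO
      · rw [Function.update_of_ne hx] at hvO ⊢
        rw [mem_insert] at hx'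
        exact hS.cov x' (hx'.resolve_left hx) v hv hvO
    · intro x' v hv
      by_cases hx : x' = x
      · subst hx
        rw [Function.update_self] at hv
        exact ⟨hOx v hv, (hO2 v hv).1, (hO2 v hv).2.1, (hO2 v hv).2.2.1⟩
      · rw [Function.update_of_ne hx] at hv
        exact hS.OU x' v hv
    · intro x1 x2 hne
      by_cases h1 : x1 = x
      · subst h1
        rw [Function.update_self, Function.update_of_ne (fun h2 => hne h2.symm)]
        exact (hOd x2 (fun h2 => hne h2.symm)).symm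
      · rw [Function.update_of_ne h1]
        by_cases h2 : x2 = x
        · subst h2
          rw [Function.update_self]
          exact hOd x1 h1
        · rw [Function.update_of_ne h2]
          exact hS.Od x1 x2 hne
    · intro x'
      by_cases hx : x' = x
      · subst hx
        rw [Function.update_self]
        exact hO3
      · rw [Function.update_of_ne hx]
        exact hS.spr x'

end defs

theorem stmt_P0ALL : Stmt_P0ALL.{u} := by
  intro g gh gd δ n l m r K K1 S ν hg hgh hgd hδ hδ1 hl hm hN hr hK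
  have hm0 : (0 : ℝ) < 2 * (m : ℝ) + 1 := by positivity
  have hl0 : (0 : ℝ) < 2 * (l : ℝ) + 1 := by positivity
  have hr0 : (0 : ℝ) < (r : ℝ) + 1 := by positivity
  have hK0 : (0 : ℝ) < (K : ℝ) + 1 := by positivity
  have hS0 : (0 : ℝ) < (S : ℝ) + 1 := by positivity
  have hn0 : (0 : ℝ) ≤ (n : ℝ) := Nat.cast_nonneg _
  have hs0 : 0 < δ / (10000 * ((2 * (m : ℝ) + 1) * (2 * l + 1))) := by positivity
  refine ⟨δ / (10000 * ((2 * (m : ℝ) + 1) * (2 * l + 1))), δ / 10,
    δ / (10000 * ((2 * (m : ℝ) + 1) * (2 * l + 1))),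
    ⌈2 / (δ / (10000 * ((2 * (m : ℝ) + 1) * (2 * l + 1)))) * (2 * ((n : ℝ) + 1))⌉₊, hs0,
    by positivity, hs0, ?_⟩
  intro V _ G H Q Gc d0 d k w W1 c1 UH c0 EH tu lab e τ ι ρ e1 sy tp pal c wv Nd hd hSit hR hH he
    hV hU hND hmw hτρ hmρ
  set s : ℝ := δ / (10000 * ((2 * (m : ℝ) + 1) * (2 * l + 1))) with hs
  set x0 : ℝ := s * d with hx0
  have hd0 : (0 : ℝ) ≤ d := Nat.cast_nonneg _
  have hd00 : (0 : ℝ) ≤ d0 := Nat.cast_nonneg _
  have h2 : 2 ≤ x0 := by
    have h3 : 2 / s * (2 * ((n : ℝ) + 1)) ≤ (d0 : ℝ) :=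
      (Nat.le_ceil _).trans (by exact_mod_cast hd)
    have h4 := hSit.cls.d2D (by linarith)
    have h5 : 2 / s * (2 * ((n : ℝ) + 1)) ≤ d * (2 * ((n : ℝ) + 1)) := by linarith
    have h6 : 2 / s ≤ (d : ℝ) := le_of_mul_le_mul_right h5 (by positivity)
    rw [div_le_iff₀ hs0] at h6
    linarith
  -- the degree of the graph compared with the degree of the host
  have hdD : (d0 : ℝ) ≤ 100 / 99 * (((n : ℝ) + 1) * d) := by
    have h3 := hSit.cls.le_D
    have h4 : δ / 10 * (d0 : ℝ) ≤ 1 / 100 * d0 := mul_le_mul_of_nonneg_right (by linarith) hd00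
    linarith
  have hqd : ∀ t : Option (ZMod 3), (4 : ℝ) / 3 * (d / ((2 * m + 1) * (2 * l + 1))) ≤
      qr l m S t d := by
    intro t
    have h3 : (4 : ℝ) / 3 * (d / ((2 * m + 1) * (2 * l + 1))) =
        4 * ((S : ℝ) + 1) * pr l m S * d := by
      unfold pr
      field_simp
    rw [h3]
    unfold qr
    have h4 : (0 : ℝ) ≤ pr l m S := by
      unfold pr
      positivity
    have h5 : 4 * ((S : ℝ) + 1) ≤ nr S t := by
      unfold nr
      push_cast
      have h6 : (0 : ℝ) ≤ (np t : ℝ) := Nat.cast_nonneg _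
      linarith
    exact mul_le_mul_of_nonneg_right (mul_le_mul_of_nonneg_right h5 h4) hd0
  have hq : ∀ t : Option (ZMod 3), 4000 * x0 ≤ δ * qr l m S t d := by
    intro t
    have h3 : (10000 : ℝ) * x0 = δ * (d / ((2 * m + 1) * (2 * l + 1))) := by
      rw [hx0, hs]
      field_simp
    have h4 : δ * ((4 : ℝ) / 3 * (d / ((2 * m + 1) * (2 * l + 1)))) ≤ δ * qr l m S t d :=
      mul_le_mul_of_nonneg_left (hqd t) hδ.le
    have h5 : δ * ((4 : ℝ) / 3 * (d / ((2 * m + 1) * (2 * l + 1)))) = 4 / 3 * (10000 * x0) := by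
      rw [h3]
      ring
    rw [h5] at h4
    linarith
  have hε : ∀ t : Option (ZMod 3), δ / 10 * qr l m S t d ≤ 1 / 10 * (δ * qr l m S t d) := by
    intro t
    apply le_of_eq
    ring
  have hfrac : ∀ Y : ℝ, 0 < Y → 10000 * ((n : ℝ) + 1) * (2 * (l : ℝ) + 1) ≤ δ * Y →
      ((n : ℝ) + 1) * ((d : ℝ) / ((2 * m + 1) * Y)) ≤ x0 := by
    intro Y hY hY2
    rw [hx0, hs, ← mul_div_assoc, div_mul_eq_mul_div,
      div_le_div_iff₀ (by positivity) (by positivity)]
    have h3 : (2 * (m : ℝ) + 1) * (10000 * ((n : ℝ) + 1) * (2 * (l : ℝ) + 1)) * d ≤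
        (2 * (m : ℝ) + 1) * (δ * Y) * d :=
      mul_le_mul_of_nonneg_right (mul_le_mul_of_nonneg_left hY2 hm0.le) hd0
    calc ((n : ℝ) + 1) * (d : ℝ) * (10000 * ((2 * m + 1) * (2 * l + 1)))
        = (2 * (m : ℝ) + 1) * (10000 * ((n : ℝ) + 1) * (2 * (l : ℝ) + 1)) * d := by ring
      _ ≤ (2 * (m : ℝ) + 1) * (δ * Y) * d := h3
      _ = δ * d * ((2 * m + 1) * Y) := by ring
  have hfrac1 : ∀ Y : ℝ, 0 < Y → 10000 * ((n : ℝ) + 1) * (2 * (l : ℝ) + 1) ≤ δ * Y →
      (d : ℝ) / ((2 * m + 1) * Y) ≤ x0 := by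
    intro Y hY hY2
    have h3 := hfrac Y hY hY2
    have h4 : 0 ≤ (n : ℝ) * ((d : ℝ) / ((2 * m + 1) * Y)) := by positivity
    linarith
  have hw : (w : ℝ) ≤ 5 / 2 * x0 := by
    have h3 := hfrac (2 * m + 1) hm0 hN
    have hm4 : (4 : ℝ) ≤ m := by exact_mod_cast hm
    have hw0 : (0 : ℝ) ≤ w := Nat.cast_nonneg _
    have h5 : (4 : ℝ) / 9 * w ≤ (d0 : ℝ) / ((2 * m + 1) * (2 * m + 1)) := by
      rw [le_div_iff₀ (by positivity)]
      have h6 : 4 / 9 * (2 * (m : ℝ) + 1) ≤ m := by linarith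
      have h7 : (2 * (m : ℝ) + 1) * (4 / 9 * (2 * (m : ℝ) + 1)) * w ≤
          (2 * (m : ℝ) + 1) * m * w :=
        mul_le_mul_of_nonneg_right (mul_le_mul_of_nonneg_left h6 hm0.le) hw0
      calc 4 / 9 * (w : ℝ) * ((2 * m + 1) * (2 * m + 1))
          = (2 * (m : ℝ) + 1) * (4 / 9 * (2 * (m : ℝ) + 1)) * w := by ring
        _ ≤ (2 * (m : ℝ) + 1) * m * w := h7
        _ ≤ d0 := hmw
    have h6 : (d0 : ℝ) / ((2 * m + 1) * (2 * m + 1)) ≤
        100 / 99 * (((n : ℝ) + 1) * d) / ((2 * m + 1) * (2 * m + 1)) :=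
      div_le_div_of_nonneg_right hdD (by positivity)
    have h7 : 100 / 99 * (((n : ℝ) + 1) * d) / ((2 * (m : ℝ) + 1) * (2 * m + 1)) =
        100 / 99 * (((n : ℝ) + 1) * ((d : ℝ) / ((2 * m + 1) * (2 * m + 1)))) := by ring
    rw [h7] at h6
    linarith
  have hmρ' : ∀ i, m * (univ.filter (fun s => ρ s = i)).card * (3 * (2 * m + 1)) ≤ d0 := by
    intro i
    have h3 : ((m * (univ.filter (fun s => ρ s = i)).card * (3 * (2 * m + 1)) : ℕ) : ℝ) ≤
        (d0 : ℝ) := by
      push_cast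
      have h4 := hmρ i
      calc (m : ℝ) * ((univ.filter (fun s => ρ s = i)).card : ℝ) * (3 * (2 * m + 1))
          = (3 * (2 * (m : ℝ) + 1)) * (m * ((univ.filter (fun s => ρ s = i)).card : ℝ)) := by
            ring
        _ ≤ d0 := h4
    exact_mod_cast h3
  obtain ⟨M, O, hS⟩ := step hR (fun X M O hS x => renv hS hND hSit.labH hSit.bh.deg hSit.bh.low
    hSit.cls.HG hH he hV hU (by omega) x (hq _) (le_refl _) h2 (le_refl _) hw (hfrac1 _ hK0 hK)
    (hfrac1 _ hr0 hr) (hε _)) hτρ hmρ' (univ : Finset (Ix m w))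
  exact ⟨M, O, fun x v v' h => ⟨(hS.le x v v' h).1.1, (hS.le x v v' h).2⟩, hS.mat, hS.dis,
    fun x v hv hvO => hS.cov x (mem_univ _) v hv hvO, hS.OU, hS.Od, hS.spr⟩

end Pool.Agent.Work.MP_db9399_ot.helper21
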